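import Mathlib

/-!
# MP_8766ea_co: families of non-isometric planar clouds with the same PDD, for every `m ≥ 10`

Let `e₀ = (1, 0)` and `e₁ = (√3/2, 1/2)`. For `r ≠ s` positive let `T` be the regular triangle of
circumradius `r` with the vertex `r e₀`, let `R` be the regular triangle of circumradius `s` with the
vertex `s e₁`, both centred at the origin, and let `P, Q` be finite symmetric sets of real numbers.
The clouds `T ∪ R ∪ P e₀ ∪ Q e₁` and `-T ∪ R ∪ P e₀ ∪ Q e₁` have the same PDD. Indeed, with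
`W = T ∪ P e₀` and `U = R ∪ Q e₁`, every point of `W` sees `U` and `-U` at the same distances, and
every point of `U` sees `W` and `-W` at the same distances.
-/

set_option autoImplicit false

namespace Pool.Agent.Results.MP_8766ea_co.EveryCardinalFromTen

/-- The Euclidean plane. -/
abbrev Plane : Type := EuclideanSpace ℝ (Fin 2)

open scoped Classical in
/-- The row of the point `p` of the cloud `C`: the list of the distances from `p` to the other points
of `C`, in non-decreasing order. -/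
noncomputable def row (C : Finset Plane) (p : Plane) : List ℝ :=
  ((C.erase p).val.map fun q => dist p q).sort (· ≤ ·)

/-- The pointwise distance distribution `PDD(C; m - 1)` of a cloud of `m` points: the multiset of the
rows of all the points of `C`. -/
noncomputable def PDD (C : Finset Plane) : Multiset (List ℝ) :=
  C.val.map fun p => row C p

/-- Two clouds are isometric if an isometry of the plane maps one onto the other. -/
def Isometric (C C' : Finset Plane) : Prop :=
  ∃ f : Plane ≃ᵢ Plane, f '' (C : Set Plane) = (C' : Set Plane)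

/-! ### The clouds -/

/-- the point with the coordinates `x`, `y` -/
noncomputable def pt (x y : ℝ) : Plane := !₂[x, y]

/-- the point `t • (1, 0)` -/
noncomputable def onA (t : ℝ) : Plane := pt t 0

/-- the point `t • (√3/2, 1/2)` -/
noncomputable def onB (t : ℝ) : Plane := pt (t * (Real.sqrt 3 / 2)) (t / 2)

open scoped Classical in
/-- The regular triangle with centre `0` and the vertex `t • (1, 0)`. -/
noncomputable def triA (t : ℝ) : Finset Plane :=
  {pt t 0, pt (-t / 2) (t * (Real.sqrt 3 / 2)), pt (-t / 2) (-(t * (Real.sqrt 3 / 2)))}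

open scoped Classical in
/-- The regular triangle with centre `0` and the vertex `t • (√3/2, 1/2)`. -/
noncomputable def triB (t : ℝ) : Finset Plane :=
  {pt (t * (Real.sqrt 3 / 2)) (t / 2), pt (-(t * (Real.sqrt 3 / 2))) (t / 2), pt 0 (-t)}

open scoped Classical in
/-- The cloud which consists of the triangle `triA r`, of the points `x • (1, 0)` with `x ∈ P`, of
the triangle `triB s`, and of the points `x • (√3/2, 1/2)` with `x ∈ Q`. The second cloud of a pair
is obtained by replacing `r` by `-r`. -/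
noncomputable def cloud (r s : ℝ) (P Q : Finset ℝ) : Finset Plane :=
  (triA r ∪ P.image onA) ∪ (triB s ∪ Q.image onB)

/-! ### Distances and norms -/

lemma pt_inj {x y x' y' : ℝ} : pt x y = pt x' y' ↔ x = x' ∧ y = y' := by
  constructor
  · intro h
    have h0 := congrFun (congrArg (WithLp.ofLp) h) 0
    have h1 := congrFun (congrArg (WithLp.ofLp) h) 1
    simp [pt] at h0 h1
    exact ⟨h0, h1⟩
  · rintro ⟨rfl, rfl⟩; rfl

lemma neg_pt (x y : ℝ) : -pt x y = pt (-x) (-y) := by
  ext i; fin_cases i <;> simp [pt]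

lemma dist_pt (x y x' y' : ℝ) :
    dist (pt x y) (pt x' y') = Real.sqrt ((x - x') ^ 2 + (y - y') ^ 2) := by
  rw [EuclideanSpace.dist_eq, Fin.sum_univ_two]
  simp [pt, Real.dist_eq, sq_abs]

lemma s3 : Real.sqrt 3 * Real.sqrt 3 = 3 := Real.mul_self_sqrt (by norm_num)

lemma s3_pos : 0 < Real.sqrt 3 := Real.sqrt_pos.mpr (by norm_num)

lemma dist_congr {x y x' y' z w z' w' : ℝ}
    (h : (x - x') ^ 2 + (y - y') ^ 2 = (z - z') ^ 2 + (w - w') ^ 2) :
    dist (pt x y) (pt x' y') = dist (pt z w) (pt z' w') := by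
  rw [dist_pt, dist_pt, h]

/-! ### The general principle -/

lemma val_union {A B : Finset Plane} [DecidableEq Plane] (h : Disjoint A B) :
    (A ∪ B).val = A.val + B.val := by
  rw [← Finset.disjUnion_eq_union A B h]
  rfl

lemma row_eq {C C' : Finset Plane} {p p' : Plane} (hp : p ∈ C) (hp' : p' ∈ C')
    (h : C.val.map (dist p) = C'.val.map (dist p')) : row C p = row C' p' := by
  classical
  have key : ∀ (C : Finset Plane) (p : Plane), p ∈ C →
      C.val.map (dist p) = 0 ::ₘ (C.erase p).val.map (dist p) := by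
    intro C p hp
    conv_lhs => rw [← Finset.insert_erase hp]
    rw [Finset.insert_val_of_notMem (Finset.notMem_erase p C), Multiset.map_cons, dist_self]
  rw [key C p hp, key C' p' hp', Multiset.cons_inj_right] at h
  unfold row
  congr 1

open scoped Classical in
/-- **The principle.** If every point of `W` sees `U` and `-U` at the same distances, and every
point of `U` sees `W` and `-W` at the same distances, then `W ∪ U` and `-W ∪ U` have the same
pointwise distance distribution. -/
lemma PDD_eq {W W' U : Finset Plane} (hW : W'.val = W.val.map (fun w => -w))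
    (h1 : Disjoint W U) (h2 : Disjoint W' U)
    (hU : ∀ w ∈ W, U.val.map (fun u => dist w u) = U.val.map (fun u => dist w (-u)))
    (hWu : ∀ u ∈ U, W.val.map (fun w => dist u w) = W.val.map (fun w => dist u (-w))) :
    PDD (W ∪ U) = PDD (W' ∪ U) := by
  unfold PDD
  rw [val_union h1, val_union h2, Multiset.map_add, Multiset.map_add, hW, Multiset.map_map]
  congr 1
  · apply Multiset.map_congr rfl
    intro w hw
    have hw' : -w ∈ W' := by
      have : -w ∈ W'.val := by
        rw [hW]
        exact Multiset.mem_map_of_mem _ hw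
      exact this
    apply row_eq (Finset.mem_union_left _ hw) (Finset.mem_union_left _ hw')
    rw [val_union h1, val_union h2, Multiset.map_add, Multiset.map_add, hW, Multiset.map_map]
    congr 1
    · apply Multiset.map_congr rfl
      intro v _
      simp
    · refine Eq.trans (hU w hw) ?_
      apply Multiset.map_congr rfl
      intro u _
      rw [← dist_neg_neg, neg_neg]
  · apply Multiset.map_congr rfl
    intro u hu
    apply row_eq (Finset.mem_union_right _ hu) (Finset.mem_union_right _ hu)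
    rw [val_union h1, val_union h2, Multiset.map_add, Multiset.map_add, hW, Multiset.map_map]
    congr 1
    exact hWu u hu

/-- A symmetric set of reals. -/
lemma symm_map {Q : Finset ℝ} (hQ : ∀ x ∈ Q, -x ∈ Q) : Q.val.map (fun x => -x) = Q.val := by
  classical
  have h : Q.map (Equiv.neg ℝ).toEmbedding = Q := by
    ext x
    simp only [Finset.mem_map_equiv]
    constructor
    · intro h
      have := hQ _ h
      simpa using this
    · intro h
      exact hQ x h
  have h2 := congrArg Finset.val h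
  rw [Finset.map_val] at h2
  exact h2

lemma onA_neg (t : ℝ) : onA (-t) = -onA t := by
  rw [onA, onA, neg_pt, neg_zero]

lemma onB_neg (t : ℝ) : onB (-t) = -onB t := by
  rw [onB, onB, neg_pt]
  congr 1 <;> ring

lemma onA_inj : Function.Injective onA := fun _ _ h => (pt_inj.mp h).1

lemma onB_inj : Function.Injective onB := by
  intro x y h
  have := (pt_inj.mp h).2
  linarith

/-- the line part is seen like its negative from everywhere -/
lemma line_symm {Q : Finset ℝ} (hQ : ∀ x ∈ Q, -x ∈ Q) {φ : ℝ → Plane}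
    (hφ : ∀ t, φ (-t) = -φ t) (p : Plane) :
    Q.val.map (fun x => dist p (φ x)) = Q.val.map (fun x => dist p (-φ x)) := by
  conv_lhs => rw [← symm_map hQ]
  rw [Multiset.map_map]
  apply Multiset.map_congr rfl
  intro x _
  simp [hφ]

/-! ### The triangles -/

lemma triA_val {t : ℝ} (ht : t ≠ 0) : (triA t).val = pt t 0 ::ₘ pt (-t / 2) (t * (Real.sqrt 3 / 2)) ::ₘ
    {pt (-t / 2) (-(t * (Real.sqrt 3 / 2)))} := by
  classical
  have hs := s3_pos
  have h1 : pt t 0 ∉ ({pt (-t / 2) (t * (Real.sqrt 3 / 2)),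
      pt (-t / 2) (-(t * (Real.sqrt 3 / 2)))} : Finset Plane) := by
    simp only [Finset.mem_insert, Finset.mem_singleton, pt_inj, not_or]
    constructor
    · rintro ⟨h, -⟩
      exact ht (by linarith)
    · rintro ⟨h, -⟩
      exact ht (by linarith)
  have h2 : pt (-t / 2) (t * (Real.sqrt 3 / 2)) ∉
      ({pt (-t / 2) (-(t * (Real.sqrt 3 / 2)))} : Finset Plane) := by
    simp only [Finset.mem_singleton, pt_inj]
    rintro ⟨-, h⟩
    have : t * (Real.sqrt 3 / 2) = 0 := by linarith
    rcases mul_eq_zero.mp this with h | h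
    · exact ht h
    · linarith
  unfold triA
  rw [Finset.insert_val_of_notMem (by convert h1), Finset.insert_val_of_notMem (by convert h2)]
  rfl

lemma triB_val {t : ℝ} (ht : t ≠ 0) : (triB t).val = pt (t * (Real.sqrt 3 / 2)) (t / 2) ::ₘ
    pt (-(t * (Real.sqrt 3 / 2))) (t / 2) ::ₘ {pt 0 (-t)} := by
  classical
  have hs := s3_pos
  have h1 : pt (t * (Real.sqrt 3 / 2)) (t / 2) ∉ ({pt (-(t * (Real.sqrt 3 / 2))) (t / 2),
      pt 0 (-t)} : Finset Plane) := by
    simp only [Finset.mem_insert, Finset.mem_singleton, pt_inj, not_or]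
    constructor
    · rintro ⟨h, -⟩
      have : t * (Real.sqrt 3 / 2) = 0 := by linarith
      rcases mul_eq_zero.mp this with h | h
      · exact ht h
      · linarith
    · rintro ⟨-, h⟩
      exact ht (by linarith)
  have h2 : pt (-(t * (Real.sqrt 3 / 2))) (t / 2) ∉ ({pt 0 (-t)} : Finset Plane) := by
    simp only [Finset.mem_singleton, pt_inj]
    rintro ⟨-, h⟩
    exact ht (by linarith)
  unfold triB
  rw [Finset.insert_val_of_notMem (by convert h1), Finset.insert_val_of_notMem (by convert h2)]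
  rfl

lemma tri_map {α β : Type} {f g : α → β} {a b c : α}
    (h : (f a = g a ∧ f b = g c ∧ f c = g b) ∨ (f b = g b ∧ f a = g c ∧ f c = g a) ∨
      (f c = g c ∧ f a = g b ∧ f b = g a)) :
    (a ::ₘ b ::ₘ {c}).map f = (a ::ₘ b ::ₘ {c}).map g := by
  simp only [Multiset.map_cons, Multiset.map_singleton]
  rcases h with ⟨h1, h2, h3⟩ | ⟨h1, h2, h3⟩ | ⟨h1, h2, h3⟩ <;> rw [h1, h2, h3]
  · congr 1
    exact Multiset.pair_comm _ _
  · rw [Multiset.cons_swap]
    have h4 : g c ::ₘ {g a} = g a ::ₘ {g c} := Multiset.pair_comm _ _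
    rw [h4]
    exact Multiset.cons_swap _ _ _
  · exact Multiset.cons_swap _ _ _

/-- the points of `triA t` and of the line `onA` see `triB` and `-triB` at the same distances -/
lemma see_triB {s : ℝ} (hs : s ≠ 0) {w : Plane}
    (hw : ∃ t, w = onA t ∨ w = pt (-t / 2) (t * (Real.sqrt 3 / 2)) ∨
      w = pt (-t / 2) (-(t * (Real.sqrt 3 / 2)))) :
    (triB s).val.map (fun u => dist w u) = (triB s).val.map (fun u => dist w (-u)) := by
  have h3 := s3
  obtain ⟨t, rfl | rfl | rfl⟩ := hw
  all_goals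
    rw [triB_val hs]
    apply tri_map
    simp only [neg_pt, onA]
  · right; right
    refine ⟨dist_congr ?_, dist_congr ?_, dist_congr ?_⟩ <;> ring
  · left
    refine ⟨dist_congr ?_, dist_congr ?_, dist_congr ?_⟩ <;> ring_nf <;>
      simp only [pow_two, h3] <;> ring
  · right; left
    refine ⟨dist_congr ?_, dist_congr ?_, dist_congr ?_⟩ <;> ring_nf <;>
      simp only [pow_two, h3] <;> ring

/-- the points of `triB t` and of the line `onB` see `triA` and `-triA` at the same distances -/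
lemma see_triA {r : ℝ} (hr : r ≠ 0) {u : Plane}
    (hu : ∃ t, u = onB t ∨ u = pt (-(t * (Real.sqrt 3 / 2))) (t / 2) ∨ u = pt 0 (-t)) :
    (triA r).val.map (fun w => dist u w) = (triA r).val.map (fun w => dist u (-w)) := by
  have h3 := s3
  obtain ⟨t, rfl | rfl | rfl⟩ := hu
  all_goals
    rw [triA_val hr]
    apply tri_map
    simp only [neg_pt, onB]
  · right; left
    refine ⟨dist_congr ?_, dist_congr ?_, dist_congr ?_⟩ <;> ring_nf <;>
      simp only [pow_two, h3] <;> ring
  · right; right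
    refine ⟨dist_congr ?_, dist_congr ?_, dist_congr ?_⟩ <;> ring_nf <;>
      simp only [pow_two, h3] <;> ring
  · left
    refine ⟨dist_congr ?_, dist_congr ?_, dist_congr ?_⟩ <;> ring

/-! ### The two clouds have the same PDD -/

lemma neg_triA {r : ℝ} (hr : r ≠ 0) : (triA (-r)).val = (triA r).val.map (fun w => -w) := by
  rw [triA_val hr, triA_val (neg_ne_zero.mpr hr)]
  simp only [Multiset.map_cons, Multiset.map_singleton, neg_pt]
  have e1 : pt (-r) (-0) = pt (-r) 0 := by rw [neg_zero]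
  have e2 : pt (-(-r / 2)) (-(r * (Real.sqrt 3 / 2))) = pt (- -r / 2) (-r * (Real.sqrt 3 / 2)) := by
    congr 1 <;> ring
  have e3 : pt (-(-r / 2)) (-(-(r * (Real.sqrt 3 / 2)))) =
      pt (- -r / 2) (-(-r * (Real.sqrt 3 / 2))) := by
    congr 1 <;> ring
  rw [e1, e2, e3]

/-- the square of the norm -/
noncomputable def nsq (p : Plane) : ℝ := p 0 ^ 2 + p 1 ^ 2

lemma nsq_pt (x y : ℝ) : nsq (pt x y) = x ^ 2 + y ^ 2 := by simp [nsq, pt]

lemma nsq_onA (t : ℝ) : nsq (onA t) = t ^ 2 := by rw [onA, nsq_pt]; ring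

lemma nsq_onB (t : ℝ) : nsq (onB t) = t ^ 2 := by
  have h3 := s3
  rw [onB, nsq_pt]
  ring_nf
  simp only [pow_two, h3]
  ring

lemma mem_triA {t : ℝ} {p : Plane} : p ∈ triA t ↔ p = pt t 0 ∨
    p = pt (-t / 2) (t * (Real.sqrt 3 / 2)) ∨ p = pt (-t / 2) (-(t * (Real.sqrt 3 / 2))) := by
  simp [triA]

lemma mem_triB {t : ℝ} {p : Plane} : p ∈ triB t ↔ p = pt (t * (Real.sqrt 3 / 2)) (t / 2) ∨
    p = pt (-(t * (Real.sqrt 3 / 2))) (t / 2) ∨ p = pt 0 (-t) := by
  simp [triB]

lemma nsq_triA {t : ℝ} {p : Plane} (h : p ∈ triA t) : nsq p = t ^ 2 := by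
  have h3 := s3
  rcases mem_triA.mp h with rfl | rfl | rfl
  · rw [nsq_pt]; ring
  all_goals
    rw [nsq_pt]
    ring_nf
    simp only [pow_two, h3]
    ring

lemma nsq_triB {t : ℝ} {p : Plane} (h : p ∈ triB t) : nsq p = t ^ 2 := by
  have h3 := s3
  rcases mem_triB.mp h with rfl | rfl | rfl
  rotate_left 2
  · rw [nsq_pt]; ring
  all_goals
    rw [nsq_pt]
    ring_nf
    simp only [pow_two, h3]
    ring

/-- The conditions on the parameters. -/
structure Good (r s : ℝ) (P Q : Finset ℝ) : Prop where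
  r0 : r ≠ 0
  s0 : s ≠ 0
  rs : r ^ 2 ≠ s ^ 2
  P0 : (0 : ℝ) ∉ P
  symP : ∀ x ∈ P, -x ∈ P
  symQ : ∀ x ∈ Q, -x ∈ Q
  rP : ∀ x ∈ P, x ^ 2 ≠ r ^ 2
  sP : ∀ x ∈ P, x ^ 2 ≠ s ^ 2
  rQ : ∀ x ∈ Q, x ^ 2 ≠ r ^ 2
  sQ : ∀ x ∈ Q, x ^ 2 ≠ s ^ 2

lemma Good.neg {r s : ℝ} {P Q : Finset ℝ} (h : Good r s P Q) : Good (-r) s P Q where
  r0 := neg_ne_zero.mpr h.r0
  s0 := h.s0
  rs := by rw [neg_sq]; exact h.rs
  P0 := h.P0
  symP := h.symP
  symQ := h.symQ
  rP := by intro x hx; rw [neg_sq]; exact h.rP x hx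
  sP := h.sP
  rQ := by intro x hx; rw [neg_sq]; exact h.rQ x hx
  sQ := h.sQ

section
open scoped Classical

variable {r s : ℝ} {P Q : Finset ℝ}

lemma Good.disjA (h : Good r s P Q) : Disjoint (triA r) (P.image onA) := by
  rw [Finset.disjoint_left]
  intro p hp hp'
  obtain ⟨x, hx, rfl⟩ := Finset.mem_image.mp hp'
  exact h.rP x hx (by rw [← nsq_triA hp, nsq_onA])

lemma Good.disjB (h : Good r s P Q) : Disjoint (triB s) (Q.image onB) := by
  rw [Finset.disjoint_left]
  intro p hp hp'
  obtain ⟨x, hx, rfl⟩ := Finset.mem_image.mp hp'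
  exact h.sQ x hx (by rw [← nsq_triB hp, nsq_onB])

lemma Good.disj (h : Good r s P Q) : Disjoint (triA r ∪ P.image onA) (triB s ∪ Q.image onB) := by
  rw [Finset.disjoint_left]
  intro p hp hp'
  rcases Finset.mem_union.mp hp with hp | hp <;> rcases Finset.mem_union.mp hp' with hp' | hp'
  · exact h.rs (by rw [← nsq_triA hp, nsq_triB hp'])
  · obtain ⟨x, hx, rfl⟩ := Finset.mem_image.mp hp'
    exact h.rQ x hx (by rw [← nsq_triA hp, nsq_onB])
  · obtain ⟨x, hx, rfl⟩ := Finset.mem_image.mp hp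
    exact h.sP x hx (by rw [← nsq_triB hp', nsq_onA])
  · obtain ⟨x, hx, rfl⟩ := Finset.mem_image.mp hp
    obtain ⟨y, hy, hxy⟩ := Finset.mem_image.mp hp'
    obtain ⟨h1, h2⟩ := pt_inj.mp hxy
    have hy0 : y = 0 := by linarith
    rw [hy0, zero_mul] at h1
    exact h.P0 (h1 ▸ hx)

lemma Good.valW (h : Good r s P Q) :
    (triA r ∪ P.image onA).val = (triA r).val + P.val.map onA := by
  rw [val_union h.disjA, Finset.image_val_of_injOn onA_inj.injOn]

lemma Good.valU (h : Good r s P Q) :
    (triB s ∪ Q.image onB).val = (triB s).val + Q.val.map onB := by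
  rw [val_union h.disjB, Finset.image_val_of_injOn onB_inj.injOn]

lemma Good.PDD (h : Good r s P Q) : PDD (cloud r s P Q) = PDD (cloud (-r) s P Q) := by
  refine PDD_eq ?_ h.disj h.neg.disj ?_ ?_
  · rw [h.valW, h.neg.valW, neg_triA h.r0, Multiset.map_add, Multiset.map_map]
    congr 1
    conv_lhs => rw [← symm_map h.symP]
    rw [Multiset.map_map]
    apply Multiset.map_congr rfl
    intro x _
    simp [onA_neg]
  · intro w hw
    rw [h.valU, Multiset.map_add, Multiset.map_add, Multiset.map_map, Multiset.map_map]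
    congr 1
    · apply see_triB h.s0
      rcases Finset.mem_union.mp hw with hw | hw
      · rcases mem_triA.mp hw with rfl | rfl | rfl
        · exact ⟨r, Or.inl rfl⟩
        · exact ⟨r, Or.inr (Or.inl rfl)⟩
        · exact ⟨r, Or.inr (Or.inr rfl)⟩
      · obtain ⟨x, -, rfl⟩ := Finset.mem_image.mp hw
        exact ⟨x, Or.inl rfl⟩
    · exact line_symm h.symQ onB_neg w
  · intro u hu
    rw [h.valW, Multiset.map_add, Multiset.map_add, Multiset.map_map, Multiset.map_map]
    congr 1
    · apply see_triA h.r0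
      rcases Finset.mem_union.mp hu with hu | hu
      · rcases mem_triB.mp hu with rfl | rfl | rfl
        · exact ⟨s, Or.inl rfl⟩
        · exact ⟨s, Or.inr (Or.inl rfl)⟩
        · exact ⟨s, Or.inr (Or.inr rfl)⟩
      · obtain ⟨x, -, rfl⟩ := Finset.mem_image.mp hu
        exact ⟨x, Or.inl rfl⟩
    · exact line_symm h.symP onA_neg u

lemma Good.val (h : Good r s P Q) : (cloud r s P Q).val =
    ((triA r).val + P.val.map onA) + ((triB s).val + Q.val.map onB) := by
  unfold cloud
  rw [val_union h.disj, h.valW, h.valU]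

lemma Good.card (h : Good r s P Q) : (cloud r s P Q).card = 6 + P.card + Q.card := by
  show Multiset.card (cloud r s P Q).val = _
  rw [h.val, triA_val h.r0, triB_val h.s0]
  simp only [Multiset.card_add, Multiset.card_cons, Multiset.card_singleton, Multiset.card_map,
    Finset.card_val]
  ring

lemma Good.sum (h : Good r s P Q) (g : Plane → ℝ) : ∑ q ∈ cloud r s P Q, g q =
    (g (pt r 0) + g (pt (-r / 2) (r * (Real.sqrt 3 / 2))) +
      g (pt (-r / 2) (-(r * (Real.sqrt 3 / 2))))) + ∑ x ∈ P, g (onA x) +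
    (g (pt (s * (Real.sqrt 3 / 2)) (s / 2)) + g (pt (-(s * (Real.sqrt 3 / 2))) (s / 2)) +
      g (pt 0 (-s))) + ∑ x ∈ Q, g (onB x) := by
  show ((cloud r s P Q).val.map g).sum = _
  rw [h.val, triA_val h.r0, triB_val h.s0]
  simp only [Multiset.map_add, Multiset.sum_add, Multiset.map_cons, Multiset.map_singleton,
    Multiset.sum_cons, Multiset.sum_singleton, Multiset.map_map]
  show (_ + (_ + _)) + (P.val.map (fun x => g (onA x))).sum + ((_ + (_ + _)) +
    (Q.val.map (fun x => g (onB x))).sum) = _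
  rw [Finset.sum, Finset.sum]
  ring

end

/-! ### The two clouds are not isometric -/

/-- the inner product -/
noncomputable def ip (p q : Plane) : ℝ := p 0 * q 0 + p 1 * q 1

lemma ip_pt (x y x' y' : ℝ) : ip (pt x y) (pt x' y') = x * x' + y * y' := by simp [ip, pt]

lemma dist_sq (p q : Plane) : dist p q ^ 2 = nsq p + nsq q - 2 * ip p q := by
  rw [EuclideanSpace.dist_eq, Fin.sum_univ_two, Real.sq_sqrt (by positivity)]
  simp only [Real.dist_eq, sq_abs, nsq, ip]
  ring

lemma sum_zero {Q : Finset ℝ} (hQ : ∀ x ∈ Q, -x ∈ Q) : ∑ x ∈ Q, x = 0 := by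
  have h : ∑ x ∈ Q, -x = ∑ x ∈ Q, x := by
    show (Q.val.map (fun x => -x)).sum = (Q.val.map (fun x => x)).sum
    rw [symm_map hQ]
    simp
  rw [Finset.sum_neg_distrib] at h
  linarith

section
variable {r s : ℝ} {P Q : Finset ℝ}

lemma Good.sum_dist (h : Good r s P Q) (p : Plane) : ∑ q ∈ cloud r s P Q, dist p q ^ 2 =
    (6 + P.card + Q.card : ℝ) * nsq p +
      (3 * r ^ 2 + 3 * s ^ 2 + ∑ x ∈ P, x ^ 2 + ∑ x ∈ Q, x ^ 2) := by
  have h3 := s3
  rw [h.sum]
  have e1 : ∑ x ∈ P, dist p (onA x) ^ 2 = P.card * nsq p + ∑ x ∈ P, x ^ 2 := by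
    have : ∀ x ∈ P, dist p (onA x) ^ 2 = nsq p + x ^ 2 - 2 * p 0 * x := by
      intro x _
      rw [dist_sq, nsq_onA]
      simp [ip, onA, pt]
      ring
    rw [Finset.sum_congr rfl this, Finset.sum_sub_distrib, Finset.sum_add_distrib,
      ← Finset.mul_sum, sum_zero h.symP]
    simp
  have e2 : ∑ x ∈ Q, dist p (onB x) ^ 2 = Q.card * nsq p + ∑ x ∈ Q, x ^ 2 := by
    have : ∀ x ∈ Q, dist p (onB x) ^ 2 = nsq p + x ^ 2 -
        (p 0 * Real.sqrt 3 + p 1) * x := by
      intro x _
      rw [dist_sq, nsq_onB]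
      simp [ip, onB, pt]
      ring
    rw [Finset.sum_congr rfl this, Finset.sum_sub_distrib, Finset.sum_add_distrib,
      ← Finset.mul_sum, sum_zero h.symQ]
    simp
  have e3 : ∀ x y, dist p (pt x y) ^ 2 = nsq p + (x ^ 2 + y ^ 2) - 2 * (p 0 * x + p 1 * y) := by
    intro x y
    rw [dist_sq, nsq_pt]
    simp [ip, pt]
  rw [e1, e2]
  simp only [e3]
  ring_nf
  simp only [pow_two, h3]
  ring

/-- an isometry which maps the first cloud onto the second one preserves the norms -/
lemma nsq_map (h : Good r s P Q) {f : Plane ≃ᵢ Plane}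
    (hf : f '' (cloud r s P Q : Set Plane) = (cloud (-r) s P Q : Set Plane)) {p : Plane} :
    nsq (f p) = nsq p := by
  classical
  have hC : cloud (-r) s P Q = (cloud r s P Q).image f := by
    apply Finset.coe_injective
    rw [← hf, Finset.coe_image]
  have h1 := h.neg.sum_dist (f p)
  have h2 := h.sum_dist p
  have h4 : ∑ q ∈ cloud (-r) s P Q, dist (f p) q ^ 2 = ∑ q ∈ cloud r s P Q, dist p q ^ 2 := by
    rw [hC, Finset.sum_image (fun x _ y _ hxy => f.injective hxy)]
    apply Finset.sum_congr rfl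
    intro q _
    rw [f.dist_eq]
  rw [h1, h2, neg_sq] at h4
  have h5 : (0 : ℝ) < 6 + P.card + Q.card := by positivity
  have h6 : (6 + P.card + Q.card : ℝ) * nsq (f p) = (6 + P.card + Q.card : ℝ) * nsq p := by
    linarith
  exact mul_left_cancel₀ h5.ne' h6

lemma ip_map (h : Good r s P Q) {f : Plane ≃ᵢ Plane}
    (hf : f '' (cloud r s P Q : Set Plane) = (cloud (-r) s P Q : Set Plane)) (p q : Plane) :
    ip (f p) (f q) = ip p q := by
  have h1 := dist_sq (f p) (f q)
  have h2 := dist_sq p q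
  rw [f.dist_eq, nsq_map h hf, nsq_map h hf] at h1
  linarith

lemma mem_cloud {p : Plane} : p ∈ cloud r s P Q ↔
    (p ∈ triA r ∨ ∃ x ∈ P, onA x = p) ∨ (p ∈ triB s ∨ ∃ x ∈ Q, onB x = p) := by
  simp [cloud, or_assoc]

lemma Good.eqA (h : Good r s P Q) {p : Plane} (hp : p ∈ cloud (-r) s P Q) (hn : nsq p = r ^ 2) :
    p ∈ triA (-r) := by
  rcases mem_cloud.mp hp with (hp | ⟨x, hx, rfl⟩) | (hp | ⟨x, hx, rfl⟩)
  · exact hp
  · rw [nsq_onA] at hn
    exact absurd hn (h.rP x hx)
  · rw [nsq_triB hp] at hn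
    exact absurd hn.symm h.rs
  · rw [nsq_onB] at hn
    exact absurd hn (h.rQ x hx)

lemma Good.eqB (h : Good r s P Q) {p : Plane} (hp : p ∈ cloud (-r) s P Q) (hn : nsq p = s ^ 2) :
    p ∈ triB s := by
  rcases mem_cloud.mp hp with (hp | ⟨x, hx, rfl⟩) | (hp | ⟨x, hx, rfl⟩)
  · rw [nsq_triA hp, neg_sq] at hn
    exact absurd hn h.rs
  · rw [nsq_onA] at hn
    exact absurd hn (h.sP x hx)
  · exact hp
  · rw [nsq_onB] at hn
    exact absurd hn (h.sQ x hx)

lemma Good.eqL (h : Good r s P Q) {p : Plane} (hp : p ∈ cloud (-r) s P Q) {t : ℝ}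
    (ht : t ∈ P ∨ t ∈ Q) (hn : nsq p = t ^ 2) :
    p = onA t ∨ p = onA (-t) ∨ p = onB t ∨ p = onB (-t) := by
  rcases mem_cloud.mp hp with (hp | ⟨x, hx, rfl⟩) | (hp | ⟨x, hx, rfl⟩)
  · rw [nsq_triA hp, neg_sq] at hn
    rcases ht with ht | ht
    · exact absurd hn.symm (h.rP t ht)
    · exact absurd hn.symm (h.rQ t ht)
  · rw [nsq_onA] at hn
    rcases sq_eq_sq_iff_eq_or_eq_neg.mp hn with rfl | rfl
    · exact Or.inl rfl
    · exact Or.inr (Or.inl rfl)
  · rw [nsq_triB hp] at hn
    rcases ht with ht | ht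
    · exact absurd hn.symm (h.sP t ht)
    · exact absurd hn.symm (h.sQ t ht)
  · rw [nsq_onB] at hn
    rcases sq_eq_sq_iff_eq_or_eq_neg.mp hn with rfl | rfl
    · exact Or.inr (Or.inr (Or.inl rfl))
    · exact Or.inr (Or.inr (Or.inr rfl))

/-- `√3/2` is not `±1`: a nonzero number is not `±√3/2` times itself -/
lemma ne_s3 {z : ℝ} (hz : z ≠ 0) {w : ℝ} (h : w = z ∨ w = -z) : w ≠ z * Real.sqrt 3 / 2 := by
  intro h1
  have h2 : w * w = z * z := by rcases h with rfl | rfl <;> ring
  have h3 : w * w = z * z * (Real.sqrt 3 * Real.sqrt 3) / 4 := by rw [h1]; ring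
  rw [s3] at h3
  have : z * z = 0 := by linarith
  exact hz (mul_self_eq_zero.mp this)

theorem not_isometric (h : Good r s P Q) (hP : P.Nonempty) (hQ : ∃ x ∈ Q, x ≠ 0) :
    ¬ Isometric (cloud r s P Q) (cloud (-r) s P Q) := by
  rintro ⟨f, hf⟩
  obtain ⟨b, hb⟩ := hP
  obtain ⟨c, hc, hc0⟩ := hQ
  have hb0 : b ≠ 0 := fun hh => h.P0 (hh ▸ hb)
  have hsq : Real.sqrt 3 ≠ 0 := s3_pos.ne'
  have h3 := s3
  have hmem : ∀ p ∈ cloud r s P Q, f p ∈ cloud (-r) s P Q := by
    intro p hp
    have : f p ∈ (cloud (-r) s P Q : Set Plane) := by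
      rw [← hf]
      exact ⟨p, hp, rfl⟩
    exact this
  have hip := ip_map h hf
  -- the images of the vertices of the triangles
  have hA : ∀ p ∈ triA r, f p ∈ triA (-r) := by
    intro p hp
    refine h.eqA (hmem p (mem_cloud.mpr (Or.inl (Or.inl hp)))) ?_
    rw [nsq_map h hf, nsq_triA hp]
  have hB : ∀ p ∈ triB s, f p ∈ triB s := by
    intro p hp
    refine h.eqB (hmem p (mem_cloud.mpr (Or.inr (Or.inl hp)))) ?_
    rw [nsq_map h hf, nsq_triB hp]
  have hLb := h.eqL (p := f (onA b)) (hmem _ (mem_cloud.mpr (Or.inl (Or.inr ⟨b, hb, rfl⟩))))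
    (Or.inl hb) (by rw [nsq_map h hf, nsq_onA])
  have hLc := h.eqL (p := f (onB c)) (hmem _ (mem_cloud.mpr (Or.inr (Or.inr ⟨c, hc, rfl⟩))))
    (Or.inr hc) (by rw [nsq_map h hf, nsq_onB])
  have hbr : b * r ≠ 0 := mul_ne_zero hb0 h.r0
  have hcr : c * r ≠ 0 := mul_ne_zero hc0 h.r0
  have hcs : c * s ≠ 0 := mul_ne_zero hc0 h.s0
  have hbc : b * c ≠ 0 := mul_ne_zero hb0 hc0
  -- the image of `onA b` is `onA (-b)`
  have h1 : f (onA b) = onA (-b) := by
    have e := hip (onA b) (pt r 0)
    have e' := hA (pt r 0) (mem_triA.mpr (Or.inl rfl))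
    have e0 : ip (onA b) (pt r 0) = b * r := by rw [onA, ip_pt]; ring
    rw [e0] at e
    rcases hLb with h1 | h1 | h1 | h1
    · exfalso
      rw [h1] at e
      rcases mem_triA.mp e' with h2 | h2 | h2 <;> rw [h2, onA, ip_pt] at e <;>
        exact hbr (by linarith)
    · exact h1
    · exfalso
      rw [h1] at e
      rcases mem_triA.mp e' with h2 | h2 | h2 <;> rw [h2, onB, ip_pt] at e
      · exact ne_s3 hbr (w := -(b * r)) (Or.inr rfl) (by linarith)
      · apply hbr
        have : b * (Real.sqrt 3 / 2) * (- -r / 2) + b / 2 * (-r * (Real.sqrt 3 / 2)) = 0 := by ring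
        linarith
      · exact ne_s3 hbr (w := b * r) (Or.inl rfl) (by linarith)
    · exfalso
      rw [h1] at e
      rcases mem_triA.mp e' with h2 | h2 | h2 <;> rw [h2, onB, ip_pt] at e
      · exact ne_s3 hbr (w := b * r) (Or.inl rfl) (by linarith)
      · apply hbr
        have : -b * (Real.sqrt 3 / 2) * (- -r / 2) + -b / 2 * (-r * (Real.sqrt 3 / 2)) = 0 := by
          ring
        linarith
      · exact ne_s3 hbr (w := -(b * r)) (Or.inr rfl) (by linarith)
  -- the image of `onB c` is `onB (±c)`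
  have h2 : f (onB c) = onB c ∨ f (onB c) = onB (-c) := by
    have e := hip (onB c) (pt (-r / 2) (r * (Real.sqrt 3 / 2)))
    have e' := hA (pt (-r / 2) (r * (Real.sqrt 3 / 2))) (mem_triA.mpr (Or.inr (Or.inl rfl)))
    have e0 : ip (onB c) (pt (-r / 2) (r * (Real.sqrt 3 / 2))) = 0 := by rw [onB, ip_pt]; ring
    rw [e0] at e
    rcases hLc with h1 | h1 | h1 | h1
    · exfalso
      rw [h1] at e
      rcases mem_triA.mp e' with h2 | h2 | h2 <;> rw [h2, onA, ip_pt] at e <;>
        exact hcr (by linarith)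
    · exfalso
      rw [h1] at e
      rcases mem_triA.mp e' with h2 | h2 | h2 <;> rw [h2, onA, ip_pt] at e <;>
        exact hcr (by linarith)
    · exact Or.inl h1
    · exact Or.inr h1
  rcases h2 with h2 | h2
  · have e := hip (onA b) (onB c)
    rw [h1, h2, onA, onA, onB, ip_pt, ip_pt] at e
    have : b * c * Real.sqrt 3 = 0 := by linarith
    exact mul_ne_zero hbc hsq this
  · have e := hip (onB c) (pt (s * (Real.sqrt 3 / 2)) (s / 2))
    have e' := hB (pt (s * (Real.sqrt 3 / 2)) (s / 2)) (mem_triB.mpr (Or.inl rfl))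
    have e0 : ip (onB c) (pt (s * (Real.sqrt 3 / 2)) (s / 2)) = c * s := by
      rw [onB, ip_pt]
      ring_nf
      simp only [pow_two, h3]
      ring
    rw [e0, h2] at e
    rcases mem_triB.mp e' with h5 | h5 | h5 <;> rw [h5, onB, ip_pt] at e
    · ring_nf at e
      simp only [pow_two, h3] at e
      exact hcs (by linarith)
    · ring_nf at e
      simp only [pow_two, h3] at e
      exact hcs (by linarith)
    · exact hcs (by linarith)

end

/-! ### The result -/

/-- `n` numbers, symmetric with respect to `0`, whose squares are different from `1`, `4`, `9` -/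
noncomputable def nums (n : ℕ) : Finset ℝ :=
  (Finset.range n).map ⟨fun i : ℕ => 4 * (2 * (i : ℝ) + 1 - n), fun i j h => by
    have : (i : ℝ) = j := by
      have h' : 4 * (2 * (i : ℝ) + 1 - n) = 4 * (2 * (j : ℝ) + 1 - n) := h
      linarith
    exact_mod_cast this⟩

lemma mem_nums {n : ℕ} {x : ℝ} : x ∈ nums n ↔ ∃ i < n, 4 * (2 * (i : ℝ) + 1 - n) = x := by
  simp only [nums, Finset.mem_map, Finset.mem_range]
  rfl

lemma nums_sq {n : ℕ} {x : ℝ} (h : x ∈ nums n) : x ^ 2 = 0 ∨ 16 ≤ x ^ 2 := by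
  obtain ⟨i, -, rfl⟩ := mem_nums.mp h
  have e : (4 * (2 * (i : ℝ) + 1 - n)) ^ 2 = ((16 * (2 * (i : ℤ) + 1 - n) ^ 2 : ℤ) : ℝ) := by
    push_cast
    ring
  rw [e]
  rcases eq_or_ne (2 * (i : ℤ) + 1 - n) 0 with h0 | h0
  · left
    rw [h0]
    norm_num
  · right
    have : 1 ≤ (2 * (i : ℤ) + 1 - n) ^ 2 := by
      have := sq_pos_of_ne_zero h0
      omega
    have h2 : (16 : ℤ) ≤ 16 * (2 * (i : ℤ) + 1 - n) ^ 2 := by omega
    exact_mod_cast h2

lemma good_nums (n : ℕ) : Good 1 2 {3, -3} (nums n) where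
  r0 := one_ne_zero
  s0 := two_ne_zero
  rs := by norm_num
  P0 := by norm_num
  symP := by
    intro x hx
    simp only [Finset.mem_insert, Finset.mem_singleton] at hx ⊢
    rcases hx with rfl | rfl <;> simp
  symQ := by
    intro x hx
    obtain ⟨i, hi, rfl⟩ := mem_nums.mp hx
    refine mem_nums.mpr ⟨n - 1 - i, by omega, ?_⟩
    have : ((n - 1 - i : ℕ) : ℝ) = n - 1 - i := by
      rw [Nat.cast_sub (by omega), Nat.cast_sub (by omega)]
      simp
    rw [this]
    ring
  rP := by
    intro x hx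
    simp only [Finset.mem_insert, Finset.mem_singleton] at hx
    rcases hx with rfl | rfl <;> norm_num
  sP := by
    intro x hx
    simp only [Finset.mem_insert, Finset.mem_singleton] at hx
    rcases hx with rfl | rfl <;> norm_num
  rQ := by
    intro x hx h
    rcases nums_sq hx with h1 | h1 <;> rw [h] at h1 <;> norm_num at h1
  sQ := by
    intro x hx h
    rcases nums_sq hx with h1 | h1 <;> rw [h] at h1 <;> norm_num at h1

/-- **Planar clouds are not determined by the PDD, for every number `m ≥ 10` of points.**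

* Let `r, s > 0` be different, and let `P` and `Q` be finite sets of real numbers which are
  symmetric with respect to `0` and contain neither `±r` nor `±s`; let `0 ∉ P`, and let each of `P`
  and `Q` contain a nonzero number. Then the two clouds `cloud r s P Q` and `cloud (-r) s P Q` of
  `6 + |P| + |Q|` points have the same pointwise distance distribution and are not isometric.
* In particular, for every `m ≥ 10` there are two non-isometric clouds of `m` points in the plane
  with the same pointwise distance distribution. -/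
theorem result :
    (∀ (r s : ℝ) (P Q : Finset ℝ), 0 < r → 0 < s → r ≠ s → (∀ x ∈ P, -x ∈ P) → (∀ x ∈ Q, -x ∈ Q) →
      (∀ x ∈ P ∪ Q, |x| ≠ r ∧ |x| ≠ s) → 0 ∉ P → P.Nonempty → (∃ x ∈ Q, x ≠ 0) →
      (cloud r s P Q).card = 6 + P.card + Q.card ∧ (cloud (-r) s P Q).card = 6 + P.card + Q.card ∧
      PDD (cloud r s P Q) = PDD (cloud (-r) s P Q) ∧
      ¬ Isometric (cloud r s P Q) (cloud (-r) s P Q)) ∧
    (∀ m : ℕ, 10 ≤ m → ∃ C C' : Finset Plane,
      C.card = m ∧ C'.card = m ∧ PDD C = PDD C' ∧ ¬ Isometric C C') := by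
  have key : ∀ {x t : ℝ}, 0 < t → |x| ≠ t → x ^ 2 ≠ t ^ 2 := by
    intro x t ht hx h
    apply hx
    rw [← abs_of_pos ht]
    exact (sq_eq_sq_iff_abs_eq_abs x t).mp h
  refine ⟨?_, ?_⟩
  · intro r s P Q hr hs hrs hP hQ hPQ h0 hP1 hQ1
    have h : Good r s P Q :=
      { r0 := hr.ne'
        s0 := hs.ne'
        rs := key hs (by rw [abs_of_pos hr]; exact hrs)
        P0 := h0
        symP := hP
        symQ := hQ
        rP := fun x hx => key hr (hPQ x (Finset.mem_union_left _ hx)).1
        sP := fun x hx => key hs (hPQ x (Finset.mem_union_left _ hx)).2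
        rQ := fun x hx => key hr (hPQ x (Finset.mem_union_right _ hx)).1
        sQ := fun x hx => key hs (hPQ x (Finset.mem_union_right _ hx)).2 }
    exact ⟨h.card, h.neg.card, h.PDD, not_isometric h hP1 hQ1⟩
  · intro m hm
    have h := good_nums (m - 8)
    have hc : (nums (m - 8)).card = m - 8 := by simp [nums]
    have h2 : ({3, -3} : Finset ℝ).card = 2 := Finset.card_pair (by norm_num)
    refine ⟨_, _, ?_, ?_, h.PDD, not_isometric h ⟨3, by simp⟩ ?_⟩
    · rw [h.card, hc, h2]
      omega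
    · rw [h.neg.card, hc, h2]
      omega
    · refine ⟨4 * (2 * ((0 : ℕ) : ℝ) + 1 - (m - 8 : ℕ)), mem_nums.mpr ⟨0, by omega, rfl⟩, ?_⟩
      have h3 : (2 : ℝ) ≤ (m - 8 : ℕ) := by
        have : 2 ≤ m - 8 := by omega
        exact_mod_cast this
      intro h4
      push_cast at h4
      linarith

end Pool.Agent.Results.MP_8766ea_co.EveryCardinalFromTen
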